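import Pool.Agent.Y587.CM.Normc

/-!
# CM2-LIMC: the limit lemma for the complex cross ratio (adapted from `Pool.Agent.Y781.CM.lim`)
-/

set_option autoImplicit false
open Filter Topology

namespace Pool.Agent.Y587.CM2

open Pool.Agent.Y320.CM

theorem cr_ne {a b c e : Sph} (h : cr a b c e ≠ 0) :
    dist a b ≠ 0 ∧ dist c e ≠ 0 ∧ dist a c ≠ 0 ∧ dist b e ≠ 0 := by
  unfold cr at h
  refine ⟨?_, ?_, ?_, ?_⟩ <;> intro h' <;> apply h <;> rw [h'] <;> simp

theorem limc (hN : S_NORMC) : S_LIMC := by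
  intro Y ι 𝓤 f c a1 a2 a3 a4 hD h
  obtain ⟨h12, h13, h14, h23, h24, h34⟩ := hD
  have hn : ∀ a b e k, D4 a b e k → 0 < ‖c a b e k‖ ∧
      Tendsto (fun i => cr (f i a) (f i b) (f i e) (f i k)) (𝓤 : Filter ι) (𝓝 ‖c a b e k‖) := by
    intro a b e k hk
    obtain ⟨h1, h2⟩ := h a b e k hk
    refine ⟨norm_pos_iff.2 h1, ?_⟩
    have h3 := h2.norm
    simp only [norm_chi] at h3
    exact h3
  have hev : ∀ a b e k, D4 a b e k →
      ∀ᶠ i in (𝓤 : Filter ι), cr (f i a) (f i b) (f i e) (f i k) ≠ 0 := by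
    intro a b e k hk
    obtain ⟨h1, h2⟩ := hn a b e k hk
    exact h2.eventually_ne h1.ne'
  have hΦ : ∀ i, ∃ Φ : Sph → Sph, (∀ a b c e, chi (Φ a) (Φ b) (Φ c) (Φ e) = chi a b c e) ∧
      (f i a1 ≠ f i a2 → f i a1 ≠ f i a3 → f i a2 ≠ f i a3 →
        dist (Φ (f i a1)) (Φ (f i a2)) = √3 ∧ dist (Φ (f i a1)) (Φ (f i a3)) = √3 ∧
        dist (Φ (f i a2)) (Φ (f i a3)) = √3) := by
    intro i
    by_cases hi : f i a1 ≠ f i a2 ∧ f i a1 ≠ f i a3 ∧ f i a2 ≠ f i a3
    · obtain ⟨Φ, h1, h2⟩ := hN _ _ _ hi.1 hi.2.1 hi.2.2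
      exact ⟨Φ, h1, fun _ _ _ => h2⟩
    · exact ⟨id, fun _ _ _ _ => rfl, fun h1 h2 h3 => absurd ⟨h1, h2, h3⟩ hi⟩
  choose Φ hΦ0 hΦ2 using hΦ
  have hΦ1 : ∀ i a b c e, cr (Φ i a) (Φ i b) (Φ i c) (Φ i e) = cr a b c e := by
    intro i a b c e
    rw [← norm_chi, ← norm_chi, hΦ0]
  have hlim : ∀ a : Y, ∃ p : Sph, Tendsto (fun i => Φ i (f i a)) (𝓤 : Filter ι) (𝓝 p) :=
    fun a => exists_lim 𝓤 _
  choose F hF using hlim
  have h3 : (0 : ℝ) < √3 := by positivity
  -- the three distances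
  have hd : dist (F a1) (F a2) = √3 ∧ dist (F a1) (F a3) = √3 ∧ dist (F a2) (F a3) = √3 := by
    have e1 := hev a1 a2 a3 a4 ⟨h12, h13, h14, h23, h24, h34⟩
    have e2 := hev a2 a3 a1 a4 ⟨h23, h12.symm, h24, h13.symm, h34, h14⟩
    have e3 : ∀ᶠ i in (𝓤 : Filter ι), dist (Φ i (f i a1)) (Φ i (f i a2)) = √3 ∧
        dist (Φ i (f i a1)) (Φ i (f i a3)) = √3 ∧ dist (Φ i (f i a2)) (Φ i (f i a3)) = √3 := by
      filter_upwards [e1, e2] with i h1 h2
      have k1 := cr_ne h1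
      have k2 := cr_ne h2
      exact hΦ2 i (dist_ne_zero.1 k1.1) (dist_ne_zero.1 k1.2.2.1) (dist_ne_zero.1 k2.1)
    refine ⟨?_, ?_, ?_⟩
    · refine tendsto_nhds_unique ((hF a1).dist (hF a2)) (tendsto_const_nhds.congr' ?_)
      filter_upwards [e3] with i hi using hi.1.symm
    · refine tendsto_nhds_unique ((hF a1).dist (hF a3)) (tendsto_const_nhds.congr' ?_)
      filter_upwards [e3] with i hi using hi.2.1.symm
    · refine tendsto_nhds_unique ((hF a2).dist (hF a3)) (tendsto_const_nhds.congr' ?_)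
      filter_upwards [e3] with i hi using hi.2.2.symm
  -- the relation
  have hrel : ∀ a b e k, D4 a b e k → dist (F a) (F b) * dist (F e) (F k) =
      ‖c a b e k‖ * (dist (F a) (F e) * dist (F b) (F k)) := by
    intro a b e k hk
    have h1 := hev a b e k hk
    have h2 := ((hF a).dist (hF b)).mul ((hF e).dist (hF k))
    have h4 := (hn a b e k hk).2.mul (((hF a).dist (hF e)).mul ((hF b).dist (hF k)))
    refine tendsto_nhds_unique h2 (h4.congr' ?_)
    filter_upwards [h1] with i hi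
    have h5 := hΦ1 i (f i a) (f i b) (f i e) (f i k)
    rw [← h5] at hi ⊢
    obtain ⟨_, _, k3, k4⟩ := cr_ne hi
    unfold cr
    field_simp
  have hinj : Function.Injective F := by
    intro a b hab
    by_contra hne
    have key : ∀ p q : Y, F p ≠ F q → F p ≠ F a → F q ≠ F a → False := by
      intro p q hpq hpa hqa
      have hpb : F p ≠ F b := by rw [← hab]; exact hpa
      have hqb : F q ≠ F b := by rw [← hab]; exact hqa
      have hk : D4 a b p q := ⟨hne, fun h' => hpa (by rw [h']), fun h' => hqa (by rw [h']),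
        fun h' => hpb (by rw [h']), fun h' => hqb (by rw [h']), fun h' => hpq (by rw [h'])⟩
      have h1 := hrel a b p q hk
      have h2 := (hn a b p q hk).1
      rw [hab, dist_self, zero_mul] at h1
      have h4 : 0 < dist (F b) (F p) := dist_pos.2 (Ne.symm hpb)
      have h5 : 0 < dist (F b) (F q) := dist_pos.2 (Ne.symm hqb)
      have h6 : 0 < ‖c a b p q‖ * (dist (F b) (F p) * dist (F b) (F q)) := by positivity
      linarith
    have n12 : F a1 ≠ F a2 := dist_pos.1 (by rw [hd.1]; exact h3)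
    have n13 : F a1 ≠ F a3 := dist_pos.1 (by rw [hd.2.1]; exact h3)
    have n23 : F a2 ≠ F a3 := dist_pos.1 (by rw [hd.2.2]; exact h3)
    by_cases q1 : F a1 = F a
    · exact key a2 a3 n23 (by rw [← q1]; exact n12.symm) (by rw [← q1]; exact n13.symm)
    · by_cases q2 : F a2 = F a
      · exact key a1 a3 n13 q1 (by rw [← q2]; exact n23.symm)
      · exact key a1 a2 n12 q1 q2
  refine ⟨F, hinj, fun a b e k hk => ?_⟩
  have hk' : D4 (F a) (F b) (F e) (F k) := ⟨hinj.ne hk.1, hinj.ne hk.2.1, hinj.ne hk.2.2.1,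
    hinj.ne hk.2.2.2.1, hinj.ne hk.2.2.2.2.1, hinj.ne hk.2.2.2.2.2⟩
  have h1 := chi_tendsto hk' (hF a) (hF b) (hF e) (hF k)
  simp only [hΦ0] at h1
  exact tendsto_nhds_unique h1 (h a b e k hk).2

end Pool.Agent.Y587.CM2
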