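import Pool.Agent.Y320.CM.Stm

/-!
# Project CM: normalisation of three points of the sphere
-/

set_option autoImplicit false
open Filter Topology

namespace Pool.Agent.Y587.CM

open Pool.Agent.Y320.CM

/-- cross ratios do not see conformal factors -/
theorem crscale {X : Type*} (F F' : X → Sph) (l : X → ℝ) (hl : ∀ a, 0 < l a)
    (h : ∀ a b, dist (F a) (F b) ^ 2 = l a * l b * dist (F' a) (F' b) ^ 2) (a b c e : X) :
    cr (F a) (F b) (F c) (F e) = cr (F' a) (F' b) (F' c) (F' e) := by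
  have hd : ∀ a b, dist (F a) (F b) = √(l a) * √(l b) * dist (F' a) (F' b) := by
    intro a b
    have h1 : (√(l a) * √(l b) * dist (F' a) (F' b)) ^ 2 = dist (F a) (F b) ^ 2 := by
      rw [h a b, mul_pow, mul_pow, Real.sq_sqrt (hl a).le, Real.sq_sqrt (hl b).le]
    exact ((sq_eq_sq₀ (by positivity) dist_nonneg).1 h1).symm
  unfold cr
  rw [hd a b, hd c e, hd a c, hd b e]
  have e1 : √(l a) * √(l b) * dist (F' a) (F' b) * (√(l c) * √(l e) * dist (F' c) (F' e)) =
      (√(l a) * √(l b) * √(l c) * √(l e)) * (dist (F' a) (F' b) * dist (F' c) (F' e)) := by ring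
  have e2 : √(l a) * √(l c) * dist (F' a) (F' c) * (√(l b) * √(l e) * dist (F' b) (F' e)) =
      (√(l a) * √(l b) * √(l c) * √(l e)) * (dist (F' a) (F' c) * dist (F' b) (F' e)) := by ring
  rw [e1, e2]
  have ha := Real.sqrt_pos.2 (hl a)
  have hb := Real.sqrt_pos.2 (hl b)
  have hc := Real.sqrt_pos.2 (hl c)
  have he := Real.sqrt_pos.2 (hl e)
  exact mul_div_mul_left _ _ (by positivity)

lemma sph_sq (p : Sph) : p.1 0 ^ 2 + p.1 1 ^ 2 + p.1 2 ^ 2 = 1 := by
  have h := p.2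
  rw [mem_sphere_zero_iff_norm] at h
  have h2 : ‖p.1‖ ^ 2 = 1 := by rw [h]; norm_num
  rw [EuclideanSpace.norm_sq_eq, Fin.sum_univ_three] at h2
  simpa using h2

lemma dist_sq (p q : Sph) : dist p q ^ 2 =
    (p.1 0 - q.1 0) ^ 2 + (p.1 1 - q.1 1) ^ 2 + (p.1 2 - q.1 2) ^ 2 := by
  rw [Subtype.dist_eq, EuclideanSpace.dist_eq, Real.sq_sqrt (by positivity), Fin.sum_univ_three]
  simp only [Real.dist_eq, sq_abs]

/-- the Lorentz form of two null vectors -/
theorem BN (p q : Sph) : B (N p) (N q) = -dist p q ^ 2 / 2 := by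
  have h1 := sph_sq p
  have h2 := sph_sq q
  rw [dist_sq]
  unfold B N
  simp only [Matrix.cons_val_zero, Matrix.cons_val_one, Matrix.cons_val]
  nlinarith

lemma B_self (v : V) : B v v = -(v 0) ^ 2 + (v 1) ^ 2 + (v 2) ^ 2 + (v 3) ^ 2 := by
  unfold B; ring

/-- a Lorentz transformation taking `v` to the time vector -/
lemma exists_R (v : V) (hv : B v v = -1) (h0 : 1 ≤ v 0) : ∃ R : V → V,
    (∀ x y, B (R x) (R y) = B x y) ∧ ∀ x, (R x) 0 = -B x v := by
  rw [B_self] at hv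
  rcases eq_or_lt_of_le h0 with h1 | h1
  · have h2 : v 1 = 0 := by
      have : (v 1) ^ 2 ≤ 0 := by nlinarith [sq_nonneg (v 2), sq_nonneg (v 3)]
      exact pow_eq_zero_iff two_ne_zero |>.1 (le_antisymm this (sq_nonneg _))
    have h3 : v 2 = 0 := by
      have : (v 2) ^ 2 ≤ 0 := by nlinarith [sq_nonneg (v 1), sq_nonneg (v 3)]
      exact pow_eq_zero_iff two_ne_zero |>.1 (le_antisymm this (sq_nonneg _))
    have h4 : v 3 = 0 := by
      have : (v 3) ^ 2 ≤ 0 := by nlinarith [sq_nonneg (v 1), sq_nonneg (v 2)]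
      exact pow_eq_zero_iff two_ne_zero |>.1 (le_antisymm this (sq_nonneg _))
    refine ⟨id, fun _ _ => rfl, fun x => ?_⟩
    unfold B
    simp only [id]
    rw [h2, h3, h4, ← h1]
    ring
  · have h2 : v 0 - 1 ≠ 0 := by linarith
    -- the coefficient
    refine ⟨fun x i => x i - ((-(x 0 * (v 0 - 1)) + x 1 * v 1 + x 2 * v 2 + x 3 * v 3) /
      (v 0 - 1)) * (if i = 0 then v 0 - 1 else v i), ?_, ?_⟩
    · intro x y
      have hX : (-(x 0 * (v 0 - 1)) + x 1 * v 1 + x 2 * v 2 + x 3 * v 3) / (v 0 - 1) * (v 0 - 1) =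
          -(x 0 * (v 0 - 1)) + x 1 * v 1 + x 2 * v 2 + x 3 * v 3 := div_mul_cancel₀ _ h2
      have hY : (-(y 0 * (v 0 - 1)) + y 1 * v 1 + y 2 * v 2 + y 3 * v 3) / (v 0 - 1) * (v 0 - 1) =
          -(y 0 * (v 0 - 1)) + y 1 * v 1 + y 2 * v 2 + y 3 * v 3 := div_mul_cancel₀ _ h2
      unfold B
      simp only [if_true, if_neg (show (1 : Fin 4) ≠ 0 by decide),
        if_neg (show (2 : Fin 4) ≠ 0 by decide), if_neg (show (3 : Fin 4) ≠ 0 by decide)]
      set c := (-(x 0 * (v 0 - 1)) + x 1 * v 1 + x 2 * v 2 + x 3 * v 3) / (v 0 - 1)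
      set d := (-(y 0 * (v 0 - 1)) + y 1 * v 1 + y 2 * v 2 + y 3 * v 3) / (v 0 - 1)
      linear_combination d * hX + c * hY + c * d * hv
    · intro x
      unfold B
      simp only [if_true]
      field_simp
      ring

/-- a null vector of the upper light cone is a multiple of some `N q` -/
lemma toSph (u : V) (hu : B u u = 0) (h0 : 0 < u 0) : ∃ q : Sph, u = u 0 • N q := by
  rw [B_self] at hu
  have hq : ‖(WithLp.toLp 2 ![u 1 / u 0, u 2 / u 0, u 3 / u 0] : EuclideanSpace ℝ (Fin 3))‖ = 1 := by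
    rw [EuclideanSpace.norm_eq, Real.sqrt_eq_one, Fin.sum_univ_three]
    simp only [Real.norm_eq_abs, sq_abs, Matrix.cons_val_zero, Matrix.cons_val_one,
      Matrix.cons_val]
    field_simp
    linarith
  refine ⟨⟨WithLp.toLp 2 ![u 1 / u 0, u 2 / u 0, u 3 / u 0], ?_⟩, ?_⟩
  · rw [mem_sphere_zero_iff_norm]; exact hq
  · funext i
    have hne := h0.ne'
    fin_cases i <;> simp [N, Pi.smul_apply, smul_eq_mul] <;> field_simp

/-- the Lorentz form is bilinear on multiples -/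
lemma B_smul (a b : ℝ) (x y : V) : B (a • x) (b • y) = a * b * B x y := by
  unfold B
  simp only [Pi.smul_apply, smul_eq_mul]
  ring

/-- a Lorentz boost acts on the sphere by a conformal map -/
theorem boost (v : V) (hv : B v v = -1) (h0 : 0 < v 0) : ∃ Φ : Sph → Sph,
    (∀ p, 0 < -B (N p) v) ∧
    ∀ p q, dist p q ^ 2 = (-B (N p) v) * (-B (N q) v) * dist (Φ p) (Φ q) ^ 2 := by
  have h1 : 1 ≤ v 0 := by
    have := hv
    rw [B_self] at this
    nlinarith [sq_nonneg (v 1), sq_nonneg (v 2), sq_nonneg (v 3)]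
  obtain ⟨R, hR, hR0⟩ := exists_R v hv h1
  have hpos : ∀ p : Sph, 0 < -B (N p) v := by
    intro p
    have hp := sph_sq p
    rw [B_self] at hv
    have e : -B (N p) v = v 0 - (p.1 0 * v 1 + p.1 1 * v 2 + p.1 2 * v 3) := by
      unfold B N
      simp only [Matrix.cons_val_zero, Matrix.cons_val_one, Matrix.cons_val]
      ring
    rw [e]
    have hcs : (p.1 0 * v 1 + p.1 1 * v 2 + p.1 2 * v 3) ^ 2 ≤ (v 0) ^ 2 - 1 := by
      have : (p.1 0 * v 1 + p.1 1 * v 2 + p.1 2 * v 3) ^ 2 ≤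
          (p.1 0 ^ 2 + p.1 1 ^ 2 + p.1 2 ^ 2) * (v 1 ^ 2 + v 2 ^ 2 + v 3 ^ 2) := by
        nlinarith [sq_nonneg (p.1 0 * v 2 - p.1 1 * v 1), sq_nonneg (p.1 0 * v 3 - p.1 2 * v 1),
          sq_nonneg (p.1 1 * v 3 - p.1 2 * v 2)]
      rw [hp, one_mul] at this
      linarith
    have : (p.1 0 * v 1 + p.1 1 * v 2 + p.1 2 * v 3) < v 0 := by
      apply lt_of_pow_lt_pow_left₀ 2 h0.le
      linarith
    linarith
  have hex : ∀ p : Sph, ∃ q : Sph, R (N p) = (R (N p)) 0 • N q := by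
    intro p
    apply toSph
    · rw [hR, BN, dist_self]; norm_num
    · rw [hR0]; exact hpos p
  choose Φ hΦ using hex
  refine ⟨Φ, hpos, fun p q => ?_⟩
  have h2 : B (N p) (N q) = B (R (N p)) (R (N q)) := (hR _ _).symm
  rw [hΦ p, hΦ q, B_smul, BN, BN, hR0, hR0] at h2
  linarith

theorem t_NORM : S_NORM := by
  intro p1 p2 p3 h12 h13 h23
  have d12 : 0 < dist p1 p2 := dist_pos.2 h12
  have d13 : 0 < dist p1 p3 := dist_pos.2 h13
  have d23 : 0 < dist p2 p3 := dist_pos.2 h23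
  set D12 := dist p1 p2 with hD12
  set D13 := dist p1 p3 with hD13
  set D23 := dist p2 p3 with hD23
  set a1 := √3 * D23 / (D12 * D13) with ha1
  set a2 := √3 * D13 / (D12 * D23) with ha2
  set a3 := √3 * D12 / (D13 * D23) with ha3
  have h3 : √3 * √3 = (3 : ℝ) := Real.mul_self_sqrt (by norm_num)
  have p3' : 0 < √(3 : ℝ) := by positivity
  have pa1 : 0 < a1 := by positivity
  have pa2 : 0 < a2 := by positivity
  have pa3 : 0 < a3 := by positivity
  have e12 : a1 * a2 * D12 ^ 2 = 3 := by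
    rw [ha1, ha2]; field_simp; nlinarith
  have e13 : a1 * a3 * D13 ^ 2 = 3 := by
    rw [ha1, ha3]; field_simp; nlinarith
  have e23 : a2 * a3 * D23 ^ 2 = 3 := by
    rw [ha2, ha3]; field_simp; nlinarith
  set v : V := fun i => (a1 * N p1 i + a2 * N p2 i + a3 * N p3 i) / 3 with hvdef
  have hBv : ∀ x : V, B x v = (a1 * B x (N p1) + a2 * B x (N p2) + a3 * B x (N p3)) / 3 := by
    intro x
    unfold B
    simp only [hvdef]
    ring
  have hBv' : ∀ x : V, B v x = (a1 * B (N p1) x + a2 * B (N p2) x + a3 * B (N p3) x) / 3 := by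
    intro x
    unfold B
    simp only [hvdef]
    ring
  have b11 : B (N p1) (N p1) = 0 := by rw [BN, dist_self]; norm_num
  have b22 : B (N p2) (N p2) = 0 := by rw [BN, dist_self]; norm_num
  have b33 : B (N p3) (N p3) = 0 := by rw [BN, dist_self]; norm_num
  have b12 : B (N p1) (N p2) = -D12 ^ 2 / 2 := BN _ _
  have b21 : B (N p2) (N p1) = -D12 ^ 2 / 2 := by rw [BN, dist_comm]
  have b13 : B (N p1) (N p3) = -D13 ^ 2 / 2 := BN _ _
  have b31 : B (N p3) (N p1) = -D13 ^ 2 / 2 := by rw [BN, dist_comm]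
  have b23 : B (N p2) (N p3) = -D23 ^ 2 / 2 := BN _ _
  have b32 : B (N p3) (N p2) = -D23 ^ 2 / 2 := by rw [BN, dist_comm]
  have c1 : a1 * -B (N p1) v = 1 := by
    rw [hBv, b11, b12, b13]; linear_combination (e12 + e13) / 6
  have c2 : a2 * -B (N p2) v = 1 := by
    rw [hBv, b22, b21, b23]; linear_combination (e12 + e23) / 6
  have c3 : a3 * -B (N p3) v = 1 := by
    rw [hBv, b33, b31, b32]; linear_combination (e13 + e23) / 6
  have hv : B v v = -1 := by
    rw [hBv']; linear_combination -(c1 + c2 + c3) / 3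
  have hv0 : 0 < v 0 := by
    simp only [hvdef, N, Matrix.cons_val_zero]
    positivity
  obtain ⟨Φ, hpos, hΦ⟩ := boost v hv hv0
  refine ⟨Φ, fun a b c e => ?_, ?_, ?_, ?_⟩
  · exact (crscale id Φ (fun p => -B (N p) v) hpos hΦ a b c e).symm
  · have h := hΦ p1 p2
    have : dist (Φ p1) (Φ p2) ^ 2 = 3 := by
      rw [← hD12] at h
      have e : dist (Φ p1) (Φ p2) ^ 2 = (a1 * -B (N p1) v) * (a2 * -B (N p2) v) *
          dist (Φ p1) (Φ p2) ^ 2 := by rw [c1, c2]; ring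
      rw [e]; linear_combination e12 - a1 * a2 * h
    rw [← this, Real.sqrt_sq dist_nonneg]
  · have h := hΦ p1 p3
    have : dist (Φ p1) (Φ p3) ^ 2 = 3 := by
      rw [← hD13] at h
      have e : dist (Φ p1) (Φ p3) ^ 2 = (a1 * -B (N p1) v) * (a3 * -B (N p3) v) *
          dist (Φ p1) (Φ p3) ^ 2 := by rw [c1, c3]; ring
      rw [e]; linear_combination e13 - a1 * a3 * h
    rw [← this, Real.sqrt_sq dist_nonneg]
  · have h := hΦ p2 p3
    have : dist (Φ p2) (Φ p3) ^ 2 = 3 := by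
      rw [← hD23] at h
      have e : dist (Φ p2) (Φ p3) ^ 2 = (a2 * -B (N p2) v) * (a3 * -B (N p3) v) *
          dist (Φ p2) (Φ p3) ^ 2 := by rw [c2, c3]; ring
      rw [e]; linear_combination e23 - a2 * a3 * h
    rw [← this, Real.sqrt_sq dist_nonneg]

end Pool.Agent.Y587.CM
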