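import Pool.Agent.Y320.CM.Stm

/-!
# Project CM: rays and limits of ultrafilters
-/

set_option autoImplicit false
open Filter Topology

namespace Pool.Agent.Y587.CM

open Pool.Agent.Y320.CM

section

variable {G : Type} [Group G] {d : G → G → ℝ} {δ : ℝ}

lemma gp_comm (h : HypD G d δ) (w x y : G) : gp d w x y = gp d w y x := by
  unfold gp
  rw [h.symm x y]
  ring

lemma gp_self (h : HypD G d δ) (w x : G) : gp d w x x = d w x := by
  unfold gp
  rw [h.self]
  ring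

/-- the Gromov product with a point on a geodesic -/
lemma gp_geo {z a : G} {t : ℝ} (h1 : d 1 z = t) (h2 : d z a = d 1 a - t) : gp d 1 z a = t := by
  unfold gp
  rw [h1, h2]
  ring

theorem ray (h : HypD G d δ) (x : ℕ → G) (hx : CI d x) :
    ∃ z : ℕ → G, (∀ t : ℕ, d 1 (z t) = t) ∧
      ∀ t : ℕ, ∃ M : ℕ, ∀ i, M ≤ i → (t : ℝ) - δ ≤ gp d 1 (x i) (z t) := by
  have key : ∀ t : ℕ, ∃ z : G, d 1 z = t ∧
      ∃ M : ℕ, ∀ i, M ≤ i → (t : ℝ) - δ ≤ gp d 1 (x i) z := by
    intro t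
    obtain ⟨M, hM⟩ := hx t
    have h1 := hM M M le_rfl le_rfl
    rw [gp_self h] at h1
    obtain ⟨z, hz1, hz2⟩ := h.geo 1 (x M) t h1
    refine ⟨z, hz1, M, fun j hj => ?_⟩
    have h2 := h.hyp 1 (x j) (x M) z
    have h3 : gp d 1 (x M) z = t := by rw [gp_comm h, gp_geo hz1 hz2]
    have h4 := hM j M hj le_rfl
    rw [h3, min_eq_right h4] at h2
    exact h2
  choose z hz using key
  exact ⟨z, fun t => (hz t).1, fun t => (hz t).2⟩

end

theorem t_RAY : S_RAY := fun _ _ _ _ h x hx => ray h x hx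

theorem t_RAYU : S_RAYU := by
  intro G _ d δ h x hx
  obtain ⟨z, hz1, hz2⟩ := ray h x hx
  have hinj : Function.Injective z := by
    intro s t hst
    have : (s : ℝ) = t := by rw [← hz1 s, ← hz1 t, hst]
    exact_mod_cast this
  have hlarge : ∀ K : ℝ, ∀ᶠ t : ℕ in (hyperfilter ℕ : Filter ℕ), K ≤ (t : ℝ) := by
    intro K
    have h1 : ∀ᶠ t : ℕ in atTop, K ≤ (t : ℝ) := by
      obtain ⟨n, hn⟩ := exists_nat_ge K
      exact eventually_atTop.2 ⟨n, fun t ht => hn.trans (by exact_mod_cast ht)⟩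
    have h2 : (hyperfilter ℕ : Filter ℕ) ≤ atTop := by
      rw [← Nat.cofinite_eq_atTop]
      exact hyperfilter_le_cofinite
    exact h1.filter_mono h2
  refine ⟨(hyperfilter ℕ).map z, ?_, ?_, ?_⟩
  · rw [Ultrafilter.coe_map]
    exact (hinj.tendsto_cofinite).mono_left hyperfilter_le_cofinite
  · intro K
    rw [Ultrafilter.coe_map, eventually_map]
    filter_upwards [hlarge (K + δ)] with t ht
    obtain ⟨M, hM⟩ := hz2 t
    refine ⟨M, fun j hj => ?_⟩
    have := hM j hj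
    rw [gp_comm h]
    linarith
  · rw [Ultrafilter.coe_map, eventually_map]
    refine Eventually.of_forall fun t => ?_
    obtain ⟨M, hM⟩ := hz2 t
    refine ⟨M, fun i hi => ?_⟩
    rw [hz1]
    exact hM i hi

theorem t_LIMPT : S_LIMPT := by
  classical
  intro G _ d δ h 𝓦 hW
  have hfar : ∀ n : ℕ, ∀ᶠ g in (𝓦 : Filter G), (n : ℝ) ≤ d 1 g := by
    intro n
    apply hW
    have h1 := h.fin n
    rw [mem_cofinite]
    refine h1.subset ?_
    intro g hg
    simp only [Set.mem_compl_iff, Set.mem_setOf_eq, not_le] at hg ⊢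
    exact hg.le
  have hf : ∀ n : ℕ, ∃ f : G → G, ∀ g, d 1 (f g) ≤ n ∧
      ((n : ℝ) ≤ d 1 g → d 1 (f g) = n ∧ d (f g) g = d 1 g - n) := by
    intro n
    have : ∀ g : G, ∃ z : G, d 1 z ≤ n ∧ ((n : ℝ) ≤ d 1 g → d 1 z = n ∧ d z g = d 1 g - n) := by
      intro g
      by_cases hg : (n : ℝ) ≤ d 1 g
      · obtain ⟨z, hz1, hz2⟩ := h.geo 1 g n hg
        exact ⟨z, hz1.le, fun _ => ⟨hz1, hz2⟩⟩
      · refine ⟨1, ?_, fun h' => absurd h' hg⟩
        rw [h.self]
        positivity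
    choose f hf using this
    exact ⟨f, hf⟩
  choose f hf using hf
  have hy : ∀ n : ℕ, ∃ y : G, ∀ᶠ g in (𝓦 : Filter G), f n g = y := by
    intro n
    have h1 : {g : G | d 1 g ≤ n} ∈ 𝓦.map (f n) := by
      rw [Ultrafilter.mem_map]
      exact Filter.univ_mem' (fun g => (hf n g).1)
    obtain ⟨y, -, hy⟩ := Ultrafilter.eq_pure_of_finite_mem (h.fin n) h1
    refine ⟨y, ?_⟩
    have h2 : {y} ∈ 𝓦.map (f n) := by
      rw [hy]
      exact rfl
    rw [Ultrafilter.mem_map] at h2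
    exact h2
  choose y hy using hy
  have hgp : ∀ n : ℕ, ∀ᶠ g in (𝓦 : Filter G), gp d 1 g (y n) = n := by
    intro n
    filter_upwards [hy n, hfar n] with g hg1 hg2
    obtain ⟨h1, h2⟩ := (hf n g).2 hg2
    rw [hg1] at h1 h2
    rw [gp_comm h, gp_geo h1 h2]
  have hyy : ∀ i j : ℕ, min (i : ℝ) j - δ ≤ gp d 1 (y i) (y j) := by
    intro i j
    obtain ⟨g, hg1, hg2⟩ := ((hgp i).and (hgp j)).exists
    have h1 := h.hyp 1 (y i) g (y j)
    rw [gp_comm h 1 (y i) g, hg1, hg2] at h1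
    exact h1
  refine ⟨y, ?_, ?_⟩
  · intro K
    obtain ⟨M, hM⟩ := exists_nat_ge (K + δ)
    refine ⟨M, fun i j hi hj => ?_⟩
    have h1 : (M : ℝ) ≤ min (i : ℝ) j := le_min (by exact_mod_cast hi) (by exact_mod_cast hj)
    have := hyy i j
    linarith
  · intro K
    obtain ⟨n, hn⟩ := exists_nat_ge (K + 2 * δ)
    filter_upwards [hgp n] with g hg
    refine ⟨n, fun j hj => ?_⟩
    have h1 := h.hyp 1 g (y n) (y j)
    have h2 := hyy n j
    have h3 : min (n : ℝ) j = n := min_eq_left (by exact_mod_cast hj)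
    rw [h3] at h2
    have h4 : (n : ℝ) - δ ≤ min (gp d 1 g (y n)) (gp d 1 (y n) (y j)) := by
      rw [hg]
      exact le_min (by linarith [h.nonneg]) h2
    linarith

end Pool.Agent.Y587.CM
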