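import Pool.Agent.Y320.CM.Basic2

/-!
# CM2-NORMC: normalisation of three points for the complex cross ratio
-/

set_option autoImplicit false
open Filter Topology

namespace Pool.Agent.Y587.CM2

open Pool.Agent.Y320.CM

theorem wedge_smul_left (c : ℂ) (u v : Fin 2 → ℂ) : wedge (c • u) v = c * wedge u v := by
  unfold wedge; simp only [Pi.smul_apply, smul_eq_mul]; ring

theorem wedge_smul_right (c : ℂ) (u v : Fin 2 → ℂ) : wedge u (c • v) = c * wedge u v := by
  unfold wedge; simp only [Pi.smul_apply, smul_eq_mul]; ring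

theorem wedge_self (u : Fin 2 → ℂ) : wedge u u = 0 := by unfold wedge; ring

theorem wedge_swap (u v : Fin 2 → ℂ) : wedge u v = -wedge v u := by unfold wedge; ring

/-- the south pole -/
noncomputable def south : Sph := ⟨!₂[0, 0, -1], by
  rw [mem_sphere_zero_iff_norm, EuclideanSpace.norm_eq]
  simp [Fin.sum_univ_three]⟩

theorem sp_south : sp south = ![0, 1] := by
  unfold sp south
  rw [if_pos (by simp)]

/-- every nonzero vector is a multiple of `sp p` for a point `p` -/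
theorem exists_sp (u : Fin 2 → ℂ) (hu : u ≠ 0) : ∃ (c : ℂ) (p : Sph), c ≠ 0 ∧ u = c • sp p := by
  by_cases h0 : u 0 = 0
  · have h1 : u 1 ≠ 0 := by
      intro h1
      apply hu
      ext i
      fin_cases i
      · exact h0
      · exact h1
    refine ⟨u 1, south, h1, ?_⟩
    rw [sp_south]
    ext i
    fin_cases i
    · simpa using h0
    · simp
  · set k : ℂ := ((2 / (1 + ‖u 1 / u 0‖ ^ 2) : ℝ) : ℂ) with hk
    have hk0 : k ≠ 0 := by
      rw [hk]
      have h : 0 < 1 + ‖u 1 / u 0‖ ^ 2 := by positivity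
      exact_mod_cast (div_pos two_pos h).ne'
    refine ⟨u 0 / k, sg (u 1 / u 0), div_ne_zero h0 hk0, ?_⟩
    rw [sp_sg, ← hk, smul_smul, div_mul_cancel₀ _ hk0]
    ext i
    fin_cases i
    · simp
    · simp only [Fin.mk_one, Pi.smul_apply, Matrix.cons_val_one, Matrix.cons_val_fin_one,
        smul_eq_mul]
      field_simp

/-- the point is unique -/
theorem unique_sp (c d : ℂ) (p q : Sph) (hc : c ≠ 0) (h : c • sp p = d • sp q) :
    p = q := by
  rw [← wedge_eq_zero_iff]
  have h1 : wedge (c • sp p) (sp q) = 0 := by rw [h, wedge_smul_left, wedge_self, mul_zero]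
  rw [wedge_smul_left] at h1
  exact (mul_eq_zero.1 h1).resolve_left hc

theorem eq_of_wedge (c : ℂ) (u : Fin 2 → ℂ) (p q : Sph) (hc : c ≠ 0) (hu : u = c • sp p)
    (h : wedge u (sp q) = 0) : p = q := by
  rw [← wedge_eq_zero_iff]
  rw [hu, wedge_smul_left] at h
  exact (mul_eq_zero.1 h).resolve_left hc

theorem chi_of_scale {Φ : Sph → Sph} {k : ℂ} (hk : k ≠ 0) {c : Sph → ℂ} (hc : ∀ p, c p ≠ 0)
    (h : ∀ p q, c p * c q * wedge (sp (Φ p)) (sp (Φ q)) = k * wedge (sp p) (sp q))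
    (a b d e : Sph) : chi (Φ a) (Φ b) (Φ d) (Φ e) = chi a b d e := by
  unfold chi
  have hcc : c a * c b * c d * c e ≠ 0 :=
    mul_ne_zero (mul_ne_zero (mul_ne_zero (hc a) (hc b)) (hc d)) (hc e)
  rw [← mul_div_mul_right _ _ hcc, ← mul_div_mul_right (wedge (sp a) (sp b) * wedge (sp d) (sp e))
    _ (pow_ne_zero 2 hk)]
  congr 1
  · linear_combination (c d * c e * wedge (sp (Φ d)) (sp (Φ e))) * h a b +
      (k * wedge (sp a) (sp b)) * h d e
  · linear_combination (c b * c e * wedge (sp (Φ b)) (sp (Φ e))) * h a d +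
      (k * wedge (sp a) (sp d)) * h b e

theorem exists_three : ∃ e1 e2 e3 : Sph, dist e1 e2 = √3 ∧ dist e1 e3 = √3 ∧ dist e2 e3 = √3 := by
  have h3 : √3 ^ 2 = 3 := Real.sq_sqrt (by norm_num)
  have hm : ∀ x y : ℝ, x ^ 2 + y ^ 2 = 1 →
      (!₂[x, y, 0] : EuclideanSpace ℝ (Fin 3)) ∈ Metric.sphere (0 : EuclideanSpace ℝ (Fin 3)) 1 := by
    intro x y h
    rw [mem_sphere_zero_iff_norm, EuclideanSpace.norm_eq]
    simp only [Fin.sum_univ_three, Real.norm_eq_abs, sq_abs]
    simp only [Matrix.cons_val_zero, Matrix.cons_val_one, Matrix.cons_val]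
    rw [Real.sqrt_eq_one]
    linarith
  have hs : ∀ p q : Sph, dist p q ^ 2 = 3 → dist p q = √3 := by
    intro p q h
    rw [← h, Real.sqrt_sq dist_nonneg]
  refine ⟨⟨_, hm 1 0 (by norm_num)⟩, ⟨_, hm (-1 / 2) (√3 / 2) (by linarith)⟩,
    ⟨_, hm (-1 / 2) (-(√3 / 2)) (by linarith)⟩, hs _ _ ?_, hs _ _ ?_, hs _ _ ?_⟩ <;>
  · rw [dist_sq]
    simp only [Matrix.cons_val_zero, Matrix.cons_val_one, Matrix.cons_val]
    linarith

theorem normc : S_NORMC := by
  intro p1 p2 p3 h12 h13 h23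
  obtain ⟨e1, e2, e3, d12, d13, d23⟩ := exists_three
  have h3 : (0 : ℝ) < √3 := by positivity
  have n12 : e1 ≠ e2 := dist_pos.1 (by rw [d12]; exact h3)
  have n13 : e1 ≠ e3 := dist_pos.1 (by rw [d13]; exact h3)
  have n23 : e2 ≠ e3 := dist_pos.1 (by rw [d23]; exact h3)
  have W : ∀ {p q : Sph}, p ≠ q → wedge (sp p) (sp q) ≠ 0 := fun h h' =>
    h ((wedge_eq_zero_iff _ _).1 h')
  set s : ℂ := wedge (sp e3) (sp e2) / wedge (sp p3) (sp p2) with hs
  set r : ℂ := wedge (sp e1) (sp e3) / wedge (sp p1) (sp p3) with hr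
  have hs0 : s ≠ 0 := div_ne_zero (W n23.symm) (W h23.symm)
  have hr0 : r ≠ 0 := div_ne_zero (W n13) (W h13)
  have hs1 : s * wedge (sp p3) (sp p2) = wedge (sp e3) (sp e2) := div_mul_cancel₀ _ (W h23.symm)
  have hr1 : r * wedge (sp p1) (sp p3) = wedge (sp e1) (sp e3) := div_mul_cancel₀ _ (W h13)
  let A : (Fin 2 → ℂ) → (Fin 2 → ℂ) := fun v =>
    (s * wedge v (sp p2)) • sp e1 + (r * wedge (sp p1) v) • sp e2
  set K : ℂ := s * r * wedge (sp e1) (sp e2) * wedge (sp p1) (sp p2) with hK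
  have hK0 : K ≠ 0 := mul_ne_zero (mul_ne_zero (mul_ne_zero hs0 hr0) (W n12)) (W h12)
  have hA : ∀ v v', wedge (A v) (A v') = K * wedge v v' := by
    intro v v'
    simp only [A, hK, wedge, Pi.add_apply, Pi.smul_apply, smul_eq_mul]
    ring
  have hA0 : ∀ p, A (sp p) ≠ 0 := by
    intro p h
    obtain ⟨q, hq⟩ := exists_new {p}
    rw [Finset.mem_singleton] at hq
    have h1 := hA (sp p) (sp q)
    rw [h] at h1
    have h2 : wedge 0 (A (sp q)) = 0 := by unfold wedge; simp
    rw [h2] at h1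
    exact (mul_ne_zero hK0 (W (Ne.symm hq))) h1.symm
  have hex : ∀ p, ∃ (c : ℂ) (q : Sph), c ≠ 0 ∧ A (sp p) = c • sp q := fun p =>
    exists_sp _ (hA0 p)
  choose c Φ hc hΦ using hex
  have e1' : Φ p1 = e1 := by
    refine eq_of_wedge _ _ _ _ (hc p1) (hΦ p1) ?_
    simp only [A, wedge, Pi.add_apply, Pi.smul_apply, smul_eq_mul]
    ring
  have e2' : Φ p2 = e2 := by
    refine eq_of_wedge _ _ _ _ (hc p2) (hΦ p2) ?_
    simp only [A, wedge, Pi.add_apply, Pi.smul_apply, smul_eq_mul]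
    ring
  have e3' : Φ p3 = e3 := by
    refine eq_of_wedge _ _ _ _ (hc p3) (hΦ p3) ?_
    simp only [A]
    rw [hs1, hr1]
    simp only [wedge, Pi.add_apply, Pi.smul_apply, smul_eq_mul]
    ring
  refine ⟨Φ, ?_, by rw [e1', e2', d12], by rw [e1', e3', d13], by rw [e2', e3', d23]⟩
  intro a b d e
  refine chi_of_scale hK0 hc ?_ a b d e
  intro p q
  rw [← hA, hΦ, hΦ, wedge_smul_left, wedge_smul_right]
  ring

/-! ### Continuity of the complex cross ratio -/

/-- local continuous representatives -/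
theorem loc_sec (a : Sph) : ∃ (r : Sph → Fin 2 → ℂ) (lam : Sph → ℂ), ContinuousAt r a ∧
    ∀ᶠ p in 𝓝 a, lam p ≠ 0 ∧ sp p = lam p • r p := by
  have c0 : Continuous fun p : Sph => p.1 0 := by fun_prop
  have c1 : Continuous fun p : Sph => p.1 1 := by fun_prop
  have c2 : Continuous fun p : Sph => p.1 2 := by fun_prop
  by_cases ha : a.1 2 = -1
  · refine ⟨fun p => ![(p.1 0 : ℂ) - Complex.I * (p.1 1 : ℂ), ((1 - p.1 2 : ℝ) : ℂ)],
      fun p => if p.1 2 = -1 then 1 / 2 else ((p.1 0 : ℂ) + Complex.I * (p.1 1 : ℂ)) /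
        ((1 - p.1 2 : ℝ) : ℂ), ?_, ?_⟩
    · refine Continuous.continuousAt (continuous_pi fun i => ?_)
      fin_cases i
      · exact (Complex.continuous_ofReal.comp c0).sub
          (continuous_const.mul (Complex.continuous_ofReal.comp c1))
      · exact Complex.continuous_ofReal.comp (continuous_const.sub c2)
    · have hev : ∀ᶠ p : Sph in 𝓝 a, p.1 2 ≠ 1 := by
        refine c2.continuousAt.eventually_ne ?_
        rw [ha]; norm_num
      filter_upwards [hev] with p hp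
      have hsq := sph_sq p
      by_cases h : p.1 2 = -1
      · have h0 : p.1 0 = 0 := by rw [h] at hsq; nlinarith [sq_nonneg (p.1 0), sq_nonneg (p.1 1)]
        have h1 : p.1 1 = 0 := by rw [h] at hsq; nlinarith [sq_nonneg (p.1 0), sq_nonneg (p.1 1)]
        refine ⟨by rw [if_pos h]; norm_num, ?_⟩
        rw [if_pos h]
        unfold sp
        rw [if_pos h]
        ext i
        fin_cases i
        · simp [h0, h1]
        · simp only [h, Fin.mk_one, Matrix.cons_val_one, Matrix.cons_val_fin_one, Pi.smul_apply,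
            smul_eq_mul]
          norm_num
      · have h1 : (1 - p.1 2 : ℝ) ≠ 0 := fun h' => hp (by linarith)
        have h1' : ((1 - p.1 2 : ℝ) : ℂ) ≠ 0 := by exact_mod_cast h1
        have h2 : (1 + p.1 2 : ℝ) ≠ 0 := fun h' => h (by linarith)
        have hz : ((p.1 0 : ℂ) + Complex.I * (p.1 1 : ℂ)) *
            ((p.1 0 : ℂ) - Complex.I * (p.1 1 : ℂ)) =
            ((1 + p.1 2 : ℝ) : ℂ) * ((1 - p.1 2 : ℝ) : ℂ) := by
          have h3 : ((p.1 0 : ℂ)) ^ 2 + ((p.1 1 : ℂ)) ^ 2 + ((p.1 2 : ℂ)) ^ 2 = 1 := by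
            have h4 := congrArg (fun x : ℝ => (x : ℂ)) hsq
            push_cast at h4
            exact h4
          push_cast
          linear_combination h3 - (p.1 1 : ℂ) ^ 2 * Complex.I_sq
        have hz0 : (p.1 0 : ℂ) + Complex.I * (p.1 1 : ℂ) ≠ 0 := by
          intro h0
          rw [h0, zero_mul] at hz
          exact (mul_ne_zero (by exact_mod_cast h2) h1') hz.symm
        refine ⟨by rw [if_neg h]; exact div_ne_zero hz0 h1', ?_⟩
        rw [if_neg h]
        unfold sp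
        rw [if_neg h]
        ext i
        fin_cases i
        · simp only [Fin.zero_eta, Matrix.cons_val_zero, Pi.smul_apply, smul_eq_mul]
          rw [div_mul_eq_mul_div, hz, mul_div_cancel_right₀ _ h1']
        · simp only [Fin.mk_one, Matrix.cons_val_one, Matrix.cons_val_fin_one, Pi.smul_apply,
            smul_eq_mul]
          rw [div_mul_cancel₀ _ h1']
          apply Complex.ext <;> simp
  · refine ⟨fun p => ![((1 + p.1 2 : ℝ) : ℂ), (p.1 0 : ℂ) + Complex.I * (p.1 1 : ℂ)],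
      fun _ => 1, ?_, ?_⟩
    · refine Continuous.continuousAt (continuous_pi fun i => ?_)
      fin_cases i
      · exact Complex.continuous_ofReal.comp (continuous_const.add c2)
      · exact (Complex.continuous_ofReal.comp c0).add
          (continuous_const.mul (Complex.continuous_ofReal.comp c1))
    · have hev : ∀ᶠ p : Sph in 𝓝 a, p.1 2 ≠ -1 := c2.continuousAt.eventually_ne ha
      filter_upwards [hev] with p hp
      refine ⟨one_ne_zero, ?_⟩
      rw [one_smul]
      unfold sp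
      rw [if_neg hp]
      ext i
      fin_cases i
      · rfl
      · simp only [Fin.mk_one, Matrix.cons_val_one, Matrix.cons_val_fin_one]
        apply Complex.ext <;> simp

/-- `chi` is continuous at four distinct points -/
theorem chi_tendsto {X : Type} {l : Filter X} {f1 f2 f3 f4 : X → Sph} {a b c e : Sph}
    (h : D4 a b c e) (h1 : Tendsto f1 l (𝓝 a)) (h2 : Tendsto f2 l (𝓝 b)) (h3 : Tendsto f3 l (𝓝 c))
    (h4 : Tendsto f4 l (𝓝 e)) :
    Tendsto (fun x => chi (f1 x) (f2 x) (f3 x) (f4 x)) l (𝓝 (chi a b c e)) := by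
  obtain ⟨ra, la, ca, ea⟩ := loc_sec a
  obtain ⟨rb, lb, cb, eb⟩ := loc_sec b
  obtain ⟨rc, lc, cc, ec⟩ := loc_sec c
  obtain ⟨re, le, ce, ee⟩ := loc_sec e
  have key : ∀ p q s t : Sph, (la p ≠ 0 ∧ sp p = la p • ra p) → (lb q ≠ 0 ∧ sp q = lb q • rb q) →
      (lc s ≠ 0 ∧ sp s = lc s • rc s) → (le t ≠ 0 ∧ sp t = le t • re t) →
      chi p q s t = wedge (ra p) (rb q) * wedge (rc s) (re t) /
        (wedge (ra p) (rc s) * wedge (rb q) (re t)) := by
    intro p q s t k1 k2 k3 k4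
    unfold chi
    rw [k1.2, k2.2, k3.2, k4.2]
    simp only [wedge_smul_left, wedge_smul_right]
    have hne : la p * lb q * lc s * le t ≠ 0 :=
      mul_ne_zero (mul_ne_zero (mul_ne_zero k1.1 k2.1) k3.1) k4.1
    rw [← mul_div_mul_right (wedge (ra p) (rb q) * wedge (rc s) (re t)) _ hne]
    congr 1 <;> ring
  have sa := ea.self_of_nhds
  have sb := eb.self_of_nhds
  have sc := ec.self_of_nhds
  have se := ee.self_of_nhds
  rw [key a b c e sa sb sc se]
  have hev : ∀ᶠ x in l, wedge (ra (f1 x)) (rb (f2 x)) * wedge (rc (f3 x)) (re (f4 x)) /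
        (wedge (ra (f1 x)) (rc (f3 x)) * wedge (rb (f2 x)) (re (f4 x))) =
        chi (f1 x) (f2 x) (f3 x) (f4 x) := by
    filter_upwards [h1.eventually ea, h2.eventually eb, h3.eventually ec, h4.eventually ee]
      with x k1 k2 k3 k4
    exact (key _ _ _ _ k1 k2 k3 k4).symm
  refine Tendsto.congr' hev ?_
  have t1 : Tendsto (fun x => ra (f1 x)) l (𝓝 (ra a)) := ca.tendsto.comp h1
  have t2 : Tendsto (fun x => rb (f2 x)) l (𝓝 (rb b)) := cb.tendsto.comp h2
  have t3 : Tendsto (fun x => rc (f3 x)) l (𝓝 (rc c)) := cc.tendsto.comp h3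
  have t4 : Tendsto (fun x => re (f4 x)) l (𝓝 (re e)) := ce.tendsto.comp h4
  have tw : ∀ {g g' : X → Fin 2 → ℂ} {u v : Fin 2 → ℂ}, Tendsto g l (𝓝 u) → Tendsto g' l (𝓝 v) →
      Tendsto (fun x => wedge (g x) (g' x)) l (𝓝 (wedge u v)) := by
    intro g g' u v hg hg'
    rw [tendsto_pi_nhds] at hg hg'
    exact ((hg 0).mul (hg' 1)).sub ((hg 1).mul (hg' 0))
  refine Tendsto.div ((tw t1 t2).mul (tw t3 t4)) ((tw t1 t3).mul (tw t2 t4)) ?_
  have w1 : wedge (sp a) (sp c) ≠ 0 := fun h' => h.2.1 ((wedge_eq_zero_iff _ _).1 h')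
  have w2 : wedge (sp b) (sp e) ≠ 0 := fun h' => h.2.2.2.2.1 ((wedge_eq_zero_iff _ _).1 h')
  rw [sa.2, sc.2, wedge_smul_left, wedge_smul_right] at w1
  rw [sb.2, se.2, wedge_smul_left, wedge_smul_right] at w2
  exact mul_ne_zero (fun h' => w1 (by rw [h', mul_zero, mul_zero]))
    (fun h' => w2 (by rw [h', mul_zero, mul_zero]))

end Pool.Agent.Y587.CM2
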